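import Pool.Agent.H92.EHD.TK
import Pool.Agent.H35.EQ.S6

/-!
Row EWH of ehd_modules: the potentials of the hyperplane.
-/

namespace Pool.Agent.H76.EHD

open scoped BigOperators ComplexConjugate ContDiff ComplexOrder
open MeasureTheory Pool.Agent.H92.EQ Pool.Agent.H92.EHD Pool.Agent.H35.EQ

private lemma iter_zero_eval {k d : ℕ} {F : Fin (k + 1) → MvPolynomial (Fin (k + 1)) ℂ}
    (hF : IsE d F) (n : ℕ) (z : Fin (k + 1) → ℂ) : ev (iter F n) z 0 = z 0 ^ d ^ n := by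
  induction n with
  | zero => simp [ev, iter]
  | succ n ih =>
    have h1 : ev (iter F (n + 1)) z 0 = (ev (iter F n) z 0) ^ d := by
      simp only [ev, iter]
      rw [hF.zero, map_pow, MvPolynomial.bind₁_X_right, map_pow]
    rw [h1, ih, ← pow_mul, ← pow_succ]

private lemma pow_bounds {a b : ℝ} (ha : 0 ≤ a) (hb : 0 ≤ b) {D : ℕ} (hD : 1 ≤ D) :
    a ^ D + b ^ D ≤ (a + b) ^ D ∧ (a + b) ^ D ≤ 2 ^ D * (a ^ D + b ^ D) := by
  refine ⟨pow_add_pow_le ha hb (by omega), ?_⟩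
  have h1 : (a + b) ^ D ≤ 2 ^ (D - 1) * (a ^ D + b ^ D) := add_pow_le ha hb D
  have h2 : (2 : ℝ) ^ (D - 1) ≤ 2 ^ D := pow_le_pow_right₀ (by norm_num) (by omega)
  have h3 : 0 ≤ a ^ D + b ^ D := by positivity
  exact h1.trans (mul_le_mul_of_nonneg_right h2 h3)

/-- the comparison of the potentials -/
private lemma key {a s S δ B0 : ℝ} {D : ℕ} (hD : 1 ≤ D) (ha : 0 ≤ a) (hs : 0 < s) (hS : 0 < S)
    (hδ : 0 < δ) (hB0 : 0 ≤ B0)
    (h : |(1 / (D : ℝ)) * (1 / 2 * Real.log S) - 1 / 2 * Real.log s| ≤ B0) :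
    |1 / 2 * Real.log (a + δ ^ 2 * s) -
      (1 / (D : ℝ)) * (1 / 2 * Real.log (a ^ D + (δ ^ D) ^ 2 * S))| ≤
      B0 + 1 / 2 * Real.log 2 := by
  have hD0 : (0 : ℝ) < D := by exact_mod_cast hD
  have hD0' : (D : ℝ) ≠ 0 := hD0.ne'
  have h1 : |Real.log S - D * Real.log s| ≤ 2 * B0 * D := by
    have e1 : Real.log S - D * Real.log s =
        (2 * D) * ((1 / (D : ℝ)) * (1 / 2 * Real.log S) - 1 / 2 * Real.log s) := by
      field_simp
    rw [e1, abs_mul, abs_of_pos (by positivity)]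
    nlinarith
  obtain ⟨h2, h3⟩ := abs_le.1 h1
  have hSs : S ≤ Real.exp (2 * B0 * D) * s ^ D := by
    rw [← Real.exp_log hS, ← Real.exp_log (pow_pos hs D), ← Real.exp_add, Real.exp_le_exp,
      Real.log_pow]
    linarith
  have hsS : Real.exp (-(2 * B0 * D)) * s ^ D ≤ S := by
    rw [← Real.exp_log hS, ← Real.exp_log (pow_pos hs D), ← Real.exp_add, Real.exp_le_exp,
      Real.log_pow]
    linarith
  set X := a ^ D + (δ ^ D) ^ 2 * S with hX
  set b := δ ^ 2 * s with hb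
  have hb0 : 0 < b := by positivity
  have hbD : (δ ^ D) ^ 2 * s ^ D = b ^ D := by rw [hb, mul_pow]; ring
  have haD : 0 ≤ a ^ D := by positivity
  have hX0 : 0 < X := by positivity
  have hY0 : 0 < a + b := by positivity
  obtain ⟨p1, p2⟩ := pow_bounds ha hb0.le hD
  have hE1 : (1 : ℝ) ≤ Real.exp (2 * B0 * D) := Real.one_le_exp (by positivity)
  have hE2 : Real.exp (-(2 * B0 * D)) ≤ 1 := Real.exp_le_one_iff.2 (by
    have : 0 ≤ 2 * B0 * D := by positivity
    linarith)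
  have u1 : X ≤ Real.exp (2 * B0 * D) * (a + b) ^ D := by
    have t1 : (δ ^ D) ^ 2 * S ≤ Real.exp (2 * B0 * D) * b ^ D := by
      rw [← hbD]
      calc (δ ^ D) ^ 2 * S ≤ (δ ^ D) ^ 2 * (Real.exp (2 * B0 * D) * s ^ D) :=
            mul_le_mul_of_nonneg_left hSs (by positivity)
        _ = _ := by ring
    have t2 : a ^ D ≤ Real.exp (2 * B0 * D) * a ^ D := le_mul_of_one_le_left haD hE1
    have t3 : Real.exp (2 * B0 * D) * (a ^ D + b ^ D) ≤ Real.exp (2 * B0 * D) * (a + b) ^ D :=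
      mul_le_mul_of_nonneg_left p1 (by positivity)
    rw [hX]
    linarith
  have u2 : Real.exp (-(2 * B0 * D)) * (a + b) ^ D ≤ 2 ^ D * X := by
    have t1 : Real.exp (-(2 * B0 * D)) * b ^ D ≤ (δ ^ D) ^ 2 * S := by
      rw [← hbD]
      calc Real.exp (-(2 * B0 * D)) * ((δ ^ D) ^ 2 * s ^ D)
          = (δ ^ D) ^ 2 * (Real.exp (-(2 * B0 * D)) * s ^ D) := by ring
        _ ≤ _ := mul_le_mul_of_nonneg_left hsS (by positivity)
    have t2 : Real.exp (-(2 * B0 * D)) * a ^ D ≤ a ^ D := mul_le_of_le_one_left haD hE2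
    have t3 : Real.exp (-(2 * B0 * D)) * (a ^ D + b ^ D) ≤ X := by
      rw [hX]; linarith
    calc Real.exp (-(2 * B0 * D)) * (a + b) ^ D
        ≤ Real.exp (-(2 * B0 * D)) * (2 ^ D * (a ^ D + b ^ D)) :=
          mul_le_mul_of_nonneg_left p2 (by positivity)
      _ = 2 ^ D * (Real.exp (-(2 * B0 * D)) * (a ^ D + b ^ D)) := by ring
      _ ≤ 2 ^ D * X := mul_le_mul_of_nonneg_left t3 (by positivity)
  have l1 : Real.log X ≤ 2 * B0 * D + D * Real.log (a + b) := by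
    have := Real.log_le_log hX0 u1
    rw [Real.log_mul (Real.exp_pos _).ne' (pow_pos hY0 D).ne', Real.log_exp, Real.log_pow] at this
    exact this
  have l2 : -(2 * B0 * D) + D * Real.log (a + b) ≤ D * Real.log 2 + Real.log X := by
    have := Real.log_le_log (by positivity) u2
    rw [Real.log_mul (Real.exp_pos _).ne' (pow_pos hY0 D).ne', Real.log_exp, Real.log_pow,
      Real.log_mul (by positivity) hX0.ne', Real.log_pow] at this
    exact this
  have hl2 : 0 ≤ Real.log 2 := Real.log_nonneg (by norm_num)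
  have e2 : 1 / 2 * Real.log (a + b) - (1 / (D : ℝ)) * (1 / 2 * Real.log X) =
      (1 / (2 * D)) * (D * Real.log (a + b) - Real.log X) := by
    field_simp
  rw [e2, abs_mul, abs_of_pos (by positivity)]
  have e3 : |D * Real.log (a + b) - Real.log X| ≤ 2 * B0 * D + D * Real.log 2 := by
    rw [abs_le]
    constructor
    · have : 0 ≤ D * Real.log 2 := by positivity
      linarith
    · linarith
  calc 1 / (2 * (D : ℝ)) * |D * Real.log (a + b) - Real.log X|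
      ≤ 1 / (2 * (D : ℝ)) * (2 * B0 * D + D * Real.log 2) :=
        mul_le_mul_of_nonneg_left e3 (by positivity)
    _ = B0 + 1 / 2 * Real.log 2 := by field_simp

theorem pf_EWH (hL3 : T_L3) (hL5 : T_L5) (hD12 : T_D12) (hKA : T_KA) : T_EWH := by
  intro k d F hd hF
  have hd1 : 1 ≤ d := by omega
  have hpot : ∀ δ : ℝ, 0 < δ → Pot (wH (k := k) δ) := by
    intro δ hδ
    have h1 := hL5 (k + 1) 1 (MvPolynomial.X 0) δ le_rfl (MvPolynomial.isHomogeneous_X _ _) hδ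
    have e1 : (fun z : Fin (k + 1) → ℂ => (1 / (2 * (1 : ℕ) : ℝ)) *
        Real.log (‖MvPolynomial.eval z (MvPolynomial.X 0 : MvPolynomial (Fin (k + 1)) ℂ)‖ ^ 2 +
          δ ^ 2 * nsq z ^ 1)) = wH δ := by
      funext z
      simp [wH]
    rw [e1] at h1
    exact h1
  have hl2 : Real.log 2 ≤ 1 := by
    have := Real.log_two_lt_d9
    linarith
  have hl0 : 0 ≤ Real.log 2 := Real.log_nonneg (by norm_num)
  obtain ⟨-, -, B0, hB0, hB, -⟩ := hKA (k + 1) d F hd hF.isH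
  have hD : ∀ n, 1 ≤ d ^ n := fun n => Nat.one_le_pow _ _ (by omega)
  have hcmp : ∀ (δ : ℝ) (n : ℕ) (z : Fin (k + 1) → ℂ), 0 < δ → z ≠ 0 →
      |wH δ z - (1 / (d : ℝ) ^ n) * wH (δ ^ (d ^ n)) (ev (iter F n) z)| ≤
        B0 + 1 / 2 * Real.log 2 := by
    intro δ n z hδ hz
    have hw : ev (iter F n) z ≠ 0 := fun h => hz (((hD12 (k + 1) d F hd1 hF.isH n n).1).nd z h)
    have h1 := hB n z hz
    unfold Gn ell at h1
    have h2 := key (a := ‖z 0‖ ^ 2) (δ := δ) (hD n) (by positivity) (nsq_pos hz) (nsq_pos hw) hδ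
      hB0.le (by push_cast; exact h1)
    push_cast at h2
    unfold wH
    rw [iter_zero_eval hF, norm_pow]
    have e1 : (‖z 0‖ ^ d ^ n) ^ 2 = (‖z 0‖ ^ 2) ^ d ^ n := by rw [← pow_mul, ← pow_mul, mul_comm]
    rw [e1]
    exact h2
  refine ⟨hpot, ?_, ?_, B0 + 1 / 2 * Real.log 2, by positivity, ?_, ?_⟩
  · intro δ hδ hδ1 z hz
    have hn := nsq_pos hz
    have h0 : ‖z 0‖ ^ 2 ≤ nsq z :=
      Finset.single_le_sum (f := fun i => ‖z i‖ ^ 2) (fun i _ => sq_nonneg _) (Finset.mem_univ 0)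
    have h1 : ‖z 0‖ ^ 2 + δ ^ 2 * nsq z ≤ 2 * nsq z := by
      have : δ ^ 2 ≤ 1 := pow_le_one₀ hδ.le hδ1
      nlinarith
    have h2 : Real.log (‖z 0‖ ^ 2 + δ ^ 2 * nsq z) ≤ Real.log 2 + Real.log (nsq z) := by
      rw [← Real.log_mul (by norm_num) hn.ne']
      exact Real.log_le_log (by positivity) h1
    unfold ell wH
    linarith
  · intro δ n hδ
    have h1 := (hL3 (k + 1)).2.2 (d ^ n) (iter F n) (wH δ) (hD n)
      (hD12 (k + 1) d F hd1 hF.isH n n).1 (hpot δ hδ)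
    have e1 : ((d ^ n : ℕ) : ℝ) = (d : ℝ) ^ n := by push_cast; rfl
    rw [e1] at h1
    exact h1
  · intro δ hδ hδ1 n
    exact ⟨δ ^ (d ^ n), by positivity, pow_le_one₀ hδ.le hδ1, fun z hz => hcmp δ n z hδ hz⟩
  · intro δ hδ hδ1 n z hz
    have hr : (δ ^ (1 / (d : ℝ) ^ n)) ^ (d ^ n) = δ := by
      rw [← Real.rpow_natCast, ← Real.rpow_mul hδ.le]
      have : (1 / (d : ℝ) ^ n) * ((d ^ n : ℕ) : ℝ) = 1 := by
        push_cast
        have : (d : ℝ) ^ n ≠ 0 := by positivity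
        field_simp
      rw [this, Real.rpow_one]
    have h1 := hcmp (δ ^ (1 / (d : ℝ) ^ n)) n z (Real.rpow_pos_of_pos hδ _) hz
    rw [hr, abs_sub_comm] at h1
    exact h1

end Pool.Agent.H76.EHD
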